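import Pool.Agent.MP_f91e0f_al.H43.Tree

open Pool.Agent.MP_f91e0f_al.H43

/-- Let `F` act freely and cocompactly on a metric simplicial tree `T`, let `G` be word-hyperbolic,
`i : F → G` an injective homomorphism and `c` the Cannon-Thurston map of `i`. Then the preimage
under `c` of the set of non-conical points has Hausdorff dimension zero in the visual metric. -/
theorem Pool.Agent.Results.MP_f91e0f_al.DimZero.result :
    ∀ (F V G : Type) [Group F] [MulAction F V] [Group G] (T : CvTree F V) (W : Gens G)
      (i : F →* G) (c : T.End → W.Bd), W.Hyp → Function.Injective i → T.IsCT W i c →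
      dimH (c ⁻¹' {z | ¬ W.Conical i z}) = 0 :=
  fun _ _ _ _ _ _ T W i c hW hi hc => T.main W i c hW hi hc
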